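import Pool.Agent.H47.SQ.Targets3

/-!
The savings of backtracking search on random k-CNFs (MP_c62aed_lc), row XCR: counting restrictions
with few variables.
-/

set_option autoImplicit false

namespace Pool.Agent.H37.SR

open Finset Pool.Agent.H97.RK Pool.Agent.H41.SS Pool.Agent.H47.SR

theorem sum_prod {n N : ℕ} (g : Fin n → Fin N → ℝ) :
    ∑ φ : Fin n → Fin N, ∏ u, g u (φ u) = ∏ u, ∑ a, g u a := by
  rw [Finset.prod_univ_sum, Fintype.piFinset_univ]

/-- the value `a` of the map at `v` counts for the clause `C` -/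
def cn {n N : ℕ} (V : Finset (Fin n)) (C : Clause n) (v : Fin n) (a : Fin N) : Prop :=
  v ∈ V ∧ a.1 < 2 ∧ (v, decide (a.1 = 1)) ∈ C

open Classical in
/-- the weight -/
noncomputable def wt {n N : ℕ} (V : Finset (Fin n)) (C : Clause n) (v : Fin n) (a : Fin N) : ℝ :=
  if cn V C v a then 1 / 2 else 1

theorem wt_nonneg {n N : ℕ} (V : Finset (Fin n)) (C : Clause n) (v : Fin n) (a : Fin N) :
    0 ≤ wt V C v a := by
  unfold wt
  split_ifs <;> norm_num

theorem wt_le {n N : ℕ} (V : Finset (Fin n)) (C : Clause n) (v : Fin n) (a : Fin N) :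
    wt V C v a ≤ 1 := by
  unfold wt
  split_ifs <;> norm_num

open Classical in
theorem prod_wt {n N : ℕ} (V : Finset (Fin n)) (C : Clause n) (φ : Fin n → Fin N) :
    ∏ v, wt V C v (φ v) = (1 / 2 : ℝ) ^ (univ.filter fun v => cn V C v (φ v)).card := by
  unfold wt
  rw [Finset.prod_ite, prod_const, prod_const, one_pow, mul_one]

open Classical in
theorem sum_wt {n Q : ℕ} (hQ : 1 ≤ Q) (V : Finset (Fin n)) (C : Clause n) (v : Fin n) :
    ∑ a : Fin (2 * Q), wt V C v a ≤
      (2 * Q : ℝ) * (if v ∈ vs C ∩ V then 1 - 1 / (4 * (Q : ℝ)) else 1) := by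
  have hQ' : (0 : ℝ) < Q := by exact_mod_cast hQ
  have hall : ∀ s : Finset (Fin (2 * Q)), ∑ a ∈ s, wt V C v a ≤ s.card := by
    intro s
    calc ∑ a ∈ s, wt V C v a ≤ ∑ _a ∈ s, (1 : ℝ) := sum_le_sum fun a _ => wt_le V C v a
      _ = s.card := by simp
  split_ifs with h
  · obtain ⟨h1, h2⟩ := mem_inter.1 h
    obtain ⟨l, hl, rfl⟩ := mem_image.1 h1
    obtain ⟨a₀, ha₀, ha₁⟩ : ∃ a₀ : Fin (2 * Q), a₀.1 < 2 ∧ decide (a₀.1 = 1) = l.2 := by
      cases hb : l.2
      · exact ⟨⟨0, by omega⟩, by norm_num, by simp⟩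
      · exact ⟨⟨1, by omega⟩, by norm_num, by simp⟩
    have hc : cn V C l.1 a₀ := ⟨h2, ha₀, by rw [ha₁]; exact hl⟩
    have hw : wt V C l.1 a₀ = 1 / 2 := by unfold wt; rw [if_pos hc]
    rw [← Finset.add_sum_erase _ _ (mem_univ a₀), hw]
    have h3 := hall (univ.erase a₀)
    rw [card_erase_of_mem (mem_univ _), card_univ, Fintype.card_fin,
      Nat.cast_sub (by omega : 1 ≤ 2 * Q)] at h3
    push_cast at h3
    have h4 : (2 * Q : ℝ) * (1 - 1 / (4 * (Q : ℝ))) = 2 * Q - 1 / 2 := by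
      field_simp
      ring
    rw [h4]
    linarith
  · have h3 := hall univ
    rw [card_univ, Fintype.card_fin] at h3
    push_cast at h3
    linarith

open Classical in
theorem sum_weight {n Q h : ℕ} (hQ : 1 ≤ Q) (V : Finset (Fin n)) (C : Clause n)
    (hh : h ≤ (vs C ∩ V).card) :
    ∑ φ : Fin n → Fin (2 * Q), ∏ v, wt V C v (φ v) ≤
      (2 * Q : ℝ) ^ n * (1 - 1 / (4 * (Q : ℝ))) ^ h := by
  have hQ' : (1 : ℝ) ≤ Q := by exact_mod_cast hQ
  have h0 : (0 : ℝ) ≤ 1 - 1 / (4 * (Q : ℝ)) := by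
    have : 1 / (4 * (Q : ℝ)) ≤ 1 := by
      rw [div_le_one (by linarith)]
      linarith
    linarith
  have h1 : 1 - 1 / (4 * (Q : ℝ)) ≤ 1 := by
    have : 0 ≤ 1 / (4 * (Q : ℝ)) := by positivity
    linarith
  rw [sum_prod]
  calc ∏ u, ∑ a, wt V C u a
      ≤ ∏ u : Fin n, ((2 * Q : ℝ) * (if u ∈ vs C ∩ V then 1 - 1 / (4 * (Q : ℝ)) else 1)) := by
        refine prod_le_prod (fun u _ => sum_nonneg fun a _ => wt_nonneg V C u a) fun u _ => ?_
        exact sum_wt hQ V C u
    _ = (2 * Q : ℝ) ^ n * (1 - 1 / (4 * (Q : ℝ))) ^ (vs C ∩ V).card := by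
        rw [prod_mul_distrib, prod_const, card_univ, Fintype.card_fin, Finset.prod_ite,
          prod_const, prod_const, one_pow, mul_one]
        congr 3
        ext u
        simp
    _ ≤ (2 * Q : ℝ) ^ n * (1 - 1 / (4 * (Q : ℝ))) ^ h := by
        refine mul_le_mul_of_nonneg_left ?_ (by positivity)
        exact pow_le_pow_of_le_one h0 h1 hh

open Classical in
theorem sum_ind {n Q : ℕ} (hQ : 1 ≤ Q) (v : Fin n) :
    ∑ φ : Fin n → Fin (2 * Q), (if (φ v).1 < 2 then (1 : ℝ) else 0) =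
      (2 * Q : ℝ) ^ n * (1 / Q) := by
  have hQ' : (0 : ℝ) < Q := by exact_mod_cast hQ
  have h1 : ∀ φ : Fin n → Fin (2 * Q), (if (φ v).1 < 2 then (1 : ℝ) else 0) =
      ∏ u, (if u = v then (if (φ u).1 < 2 then (1 : ℝ) else 0) else 1) := by
    intro φ
    rw [Finset.prod_ite_eq' univ v (fun u => if (φ u).1 < 2 then (1 : ℝ) else 0),
      if_pos (mem_univ _)]
  rw [Finset.sum_congr rfl fun φ _ => h1 φ,
    sum_prod (fun u (a : Fin (2 * Q)) => if u = v then (if a.1 < 2 then (1 : ℝ) else 0) else 1)]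
  have h2 : ∀ u : Fin n,
      ∑ a : Fin (2 * Q), (if u = v then (if a.1 < 2 then (1 : ℝ) else 0) else 1) =
      (2 * Q : ℝ) * (if u = v then 1 / (Q : ℝ) else 1) := by
    intro u
    split_ifs with h
    · rw [← Finset.sum_filter, sum_const, nsmul_eq_mul, mul_one]
      have h3 : (univ.filter fun a : Fin (2 * Q) => a.1 < 2).card = 2 := by
        have h4 : (univ.filter fun a : Fin (2 * Q) => a.1 < 2) =
            {⟨0, by omega⟩, ⟨1, by omega⟩} := by
          ext a
          simp only [mem_filter, mem_univ, true_and, mem_insert, mem_singleton, Fin.ext_iff]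
          omega
        rw [h4, card_pair]
        intro h5
        rw [Fin.ext_iff] at h5
        exact absurd h5 (by norm_num)
      rw [h3]
      push_cast
      field_simp
    · simp
  rw [Finset.prod_congr rfl fun u _ => h2 u, prod_mul_distrib, prod_const, card_univ,
    Fintype.card_fin, Finset.prod_ite_eq' univ v (fun _ => 1 / (Q : ℝ)), if_pos (mem_univ _)]

theorem pf_XCR : T_XCR := by
  classical
  intro n V x₀ S q b₀ Q h line hQ hV hyp
  have hQ' : (0 : ℝ) < Q := by exact_mod_cast hQ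
  -- the restriction
  let B : (Fin n → Fin (2 * Q)) → Finset (Fin n) := fun φ => V.filter fun v => (φ v).1 < 2
  let x : (Fin n → Fin (2 * Q)) → Fin n → Bool := fun φ v =>
    if v ∈ V then decide ((φ v).1 = 1) else x₀ v
  have hc1 : (0 : ℝ) ≤ 1 - 1 / (4 * (Q : ℝ)) := by
    have hQ1 : (1 : ℝ) ≤ Q := by exact_mod_cast hQ
    have : 1 / (4 * (Q : ℝ)) ≤ 1 := by
      rw [div_le_one (by linarith)]
      linarith
    linarith
  let I : Finset ℕ := (range S).filter fun i => h ≤ (vs (line i) ∩ V).card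
  have hkey : ∀ φ : Fin n → Fin (2 * Q),
      (1 : ℝ) ≤ ∑ i ∈ I, 2 ^ q * ∏ v, wt V (line i) v (φ v) + ((B φ).card : ℝ) / (b₀ + 1) := by
    intro φ
    have hs0 : (0 : ℝ) ≤ ∑ i ∈ I, 2 ^ q * ∏ v, wt V (line i) v (φ v) :=
      sum_nonneg fun i _ => mul_nonneg (by positivity)
        (prod_nonneg fun v _ => wt_nonneg V (line i) v (φ v))
    by_cases hB : (B φ).card ≤ b₀
    · obtain ⟨i, hi, y, z, hd, hzy, hf, hh⟩ := hyp (x φ) (B φ) (fun u hu => if_neg hu)
        (filter_subset _ _) hB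
      have hiI : i ∈ I := mem_filter.2 ⟨mem_range.2 hi, hh⟩
      have h1 : (1 : ℝ) ≤ 2 ^ q * ∏ v, wt V (line i) v (φ v) := by
        rw [prod_wt]
        have h2 : (univ.filter fun v => cn V (line i) v (φ v)).card ≤ q := by
          refine le_trans (card_le_card ?_) hd
          intro v hv
          obtain ⟨hvV, hv2, hvl⟩ := (mem_filter.1 hv).2
          refine mem_filter.2 ⟨mem_univ _, ?_⟩
          have h3 : x φ v = decide ((φ v).1 = 1) := if_pos hvV
          have h4 := hf _ hvl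
          change z v ≠ decide ((φ v).1 = 1) at h4
          rw [hzy v (mem_filter.2 ⟨hvV, hv2⟩)] at h4
          rw [h3]
          exact h4
        calc (1 : ℝ) = 2 ^ q * (1 / 2) ^ q := by rw [← mul_pow]; norm_num
          _ ≤ _ := by
            refine mul_le_mul_of_nonneg_left ?_ (by positivity)
            exact pow_le_pow_of_le_one (by norm_num) (by norm_num) h2
      have h5 : 2 ^ q * ∏ v, wt V (line i) v (φ v) ≤
          ∑ i ∈ I, 2 ^ q * ∏ v, wt V (line i) v (φ v) :=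
        single_le_sum (f := fun i => (2 : ℝ) ^ q * ∏ v, wt V (line i) v (φ v))
          (fun j _ => mul_nonneg (by positivity)
            (prod_nonneg fun v _ => wt_nonneg V (line j) v (φ v))) hiI
      have h6 : (0 : ℝ) ≤ ((B φ).card : ℝ) / (b₀ + 1) := by positivity
      linarith
    · have h6 : (1 : ℝ) ≤ ((B φ).card : ℝ) / (b₀ + 1) := by
        rw [le_div_iff₀ (by positivity), one_mul]
        exact_mod_cast (by omega : b₀ + 1 ≤ (B φ).card)
      linarith
  have hsum := sum_le_sum fun (φ : Fin n → Fin (2 * Q)) (_ : φ ∈ univ) => hkey φ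
  rw [sum_const, card_univ, Fintype.card_fun, Fintype.card_fin, Fintype.card_fin, nsmul_eq_mul,
    mul_one, sum_add_distrib, sum_comm, ← Finset.sum_div] at hsum
  push_cast at hsum
  -- the first sum
  have hA : ∑ i ∈ I, ∑ φ : Fin n → Fin (2 * Q), 2 ^ q * ∏ v, wt V (line i) v (φ v) ≤
      S * (2 ^ q * ((2 * Q : ℝ) ^ n * (1 - 1 / (4 * (Q : ℝ))) ^ h)) := by
    calc ∑ i ∈ I, ∑ φ : Fin n → Fin (2 * Q), 2 ^ q * ∏ v, wt V (line i) v (φ v)
        ≤ ∑ _i ∈ I, (2 ^ q * ((2 * Q : ℝ) ^ n * (1 - 1 / (4 * (Q : ℝ))) ^ h)) := by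
          refine sum_le_sum fun i hi => ?_
          rw [← Finset.mul_sum]
          refine mul_le_mul_of_nonneg_left ?_ (by positivity)
          exact sum_weight hQ V (line i) (mem_filter.1 hi).2
      _ = I.card * (2 ^ q * ((2 * Q : ℝ) ^ n * (1 - 1 / (4 * (Q : ℝ))) ^ h)) := by
          rw [sum_const, nsmul_eq_mul]
      _ ≤ _ := by
          refine mul_le_mul_of_nonneg_right ?_ (by positivity)
          have : I.card ≤ (range S).card := card_filter_le _ _
          rw [card_range] at this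
          exact_mod_cast this
  -- the second sum
  have hBs : ∑ φ : Fin n → Fin (2 * Q), ((B φ).card : ℝ) = V.card * ((2 * Q : ℝ) ^ n * (1 / Q)) := by
    calc ∑ φ : Fin n → Fin (2 * Q), ((B φ).card : ℝ)
        = ∑ φ : Fin n → Fin (2 * Q), ∑ v ∈ V, (if (φ v).1 < 2 then (1 : ℝ) else 0) := by
          refine Finset.sum_congr rfl fun φ _ => ?_
          rw [← Finset.sum_filter, sum_const, nsmul_eq_mul, mul_one]
      _ = ∑ v ∈ V, ∑ φ : Fin n → Fin (2 * Q), (if (φ v).1 < 2 then (1 : ℝ) else 0) := sum_comm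
      _ = ∑ _v ∈ V, ((2 * Q : ℝ) ^ n * (1 / Q)) :=
          Finset.sum_congr rfl fun v _ => sum_ind hQ v
      _ = _ := by rw [sum_const, nsmul_eq_mul]
  rw [hBs] at hsum
  have hP : (0 : ℝ) < (2 * Q : ℝ) ^ n := by positivity
  have hVb : (V.card : ℝ) * (1 / Q) / (b₀ + 1) ≤ 1 / 2 := by
    rw [div_le_iff₀ (by positivity), mul_one_div, div_le_iff₀ hQ']
    have h7 : (2 : ℝ) * V.card ≤ Q * b₀ := by exact_mod_cast hV
    nlinarith
  have hfin : (1 : ℝ) ≤ S * (2 ^ q * (1 - 1 / (4 * (Q : ℝ))) ^ h) + 1 / 2 := by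
    have h8 : (2 * Q : ℝ) ^ n ≤ (2 * Q : ℝ) ^ n *
        (S * (2 ^ q * (1 - 1 / (4 * (Q : ℝ))) ^ h) + (V.card : ℝ) * (1 / Q) / (b₀ + 1)) := by
      calc (2 * Q : ℝ) ^ n ≤ _ := hsum
        _ ≤ S * (2 ^ q * ((2 * Q : ℝ) ^ n * (1 - 1 / (4 * (Q : ℝ))) ^ h)) +
            V.card * ((2 * Q : ℝ) ^ n * (1 / Q)) / (b₀ + 1) := add_le_add hA le_rfl
        _ = _ := by ring
    have h9 : (1 : ℝ) ≤
        S * (2 ^ q * (1 - 1 / (4 * (Q : ℝ))) ^ h) + (V.card : ℝ) * (1 / Q) / (b₀ + 1) := by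
      by_contra h10
      rw [not_le] at h10
      have := mul_lt_mul_of_pos_left h10 hP
      rw [mul_one] at this
      linarith
    linarith
  linarith

end Pool.Agent.H37.SR
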