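import Pool.Agent.H47.SQ.Targets3

/-!
The savings of backtracking search on random k-CNFs (MP_c62aed_lc), row XEX: few wrong values are
refuted.
-/

set_option autoImplicit false

namespace Pool.Agent.H37.SR

open Finset Pool.Agent.H97.RK Pool.Agent.H41.SS Pool.Agent.H47.SR
open Pool.Agent.H47.PL (Sat Agr Con dm nsol Os)
open Pool.Agent.H47.SQ (Derivation Refuted Find success sav guess AlmostAll)

theorem card_last {n u : ℕ} (hu : u ≤ n) :
    (univ.filter fun v : Fin n => n - u ≤ v.1).card ≤ u := by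
  have h1 : ((univ.filter fun v : Fin n => n - u ≤ v.1).map Fin.valEmbedding) ⊆
      Ico (n - u) n := by
    intro a ha
    obtain ⟨v, hv, rfl⟩ := mem_map.1 ha
    exact mem_Ico.2 ⟨(mem_filter.1 hv).2, v.2⟩
  have h2 := card_le_card h1
  rw [card_map, Nat.card_Ico] at h2
  omega

theorem pf_XEX (hXS0 : T_XS0) (hXFR : T_XFR) : T_XEX := by
  classical
  intro n k m F t t₁ d u u₁ b₀ Q a s ht₁ htt huu hun hQ hb hQb ha hs τ hτ hBG
  obtain ⟨h0, hstep⟩ := hXS0 n k m F t t₁ d u u₁ ht₁ htt huu hun (by omega) τ hτ hBG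
  have key : ∀ i, i ≤ n - u → ∃ (W : Finset (Fin n)) (J : Finset (Fin m)),
      St2 F (2 * t) τ (pre n i) W J ∧ Inw t₁ u₁ i W J ∧
      ∀ v : Fin n, v.1 < i → Refuted F a s (insert (v, !τ v) (gr τ v.1)) → v ∈ W := by
    intro i
    induction i with
    | zero =>
      intro _
      obtain ⟨W, J, h1, h2⟩ := h0
      exact ⟨W, J, h1, h2, fun v hv => absurd hv (Nat.not_lt_zero _)⟩
    | succ i ih =>
      intro hi
      obtain ⟨W, J, h1, h2, h3⟩ := ih (by omega)
      obtain ⟨W', J', hW, h4, h5⟩ := hstep i W J (by omega) h1 h2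
      refine ⟨W', J', h4, h5, fun v hv hr => ?_⟩
      rcases Nat.lt_or_ge v.1 i with hvi | hvi
      · exact hW (h3 v hvi hr)
      · have he : v.1 = i := by omega
        subst he
        by_contra hvW
        exact hXFR n k m F t t₁ d u u₁ b₀ Q a s ht₁ htt huu hun hQ hb hQb ha hs τ hτ hBG v W J
          (by omega) h1 h2 (fun hm => hvW (hW hm)) hr
  obtain ⟨W, J, h1, -, h3⟩ := key (n - u) le_rfl
  have hW : W.card ≤ 4 * t := by
    have h4 := h1.crd
    have h5 := h1.lt
    omega
  unfold exc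
  have hsub : (univ.filter fun v : Fin n => Refuted F a s (insert (v, !τ v) (gr τ v.1))) ⊆
      W ∪ (univ.filter fun v : Fin n => n - u ≤ v.1) := by
    intro v hv
    rw [mem_union]
    rcases Nat.lt_or_ge v.1 (n - u) with h6 | h6
    · exact Or.inl (h3 v h6 (mem_filter.1 hv).2)
    · exact Or.inr (mem_filter.2 ⟨mem_univ _, h6⟩)
  have h7 := (card_le_card hsub).trans (card_union_le _ _)
  have h8 := card_last (n := n) (u := u) hun
  convert h7.trans (by omega : W.card + (univ.filter fun v : Fin n => n - u ≤ v.1).card ≤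
    u + 4 * t) using 2

end Pool.Agent.H37.SR
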